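import Mathlib

namespace Pool.Agent.Results.MP_8e2e71_co.Lower

open Finset Classical

def bishops (k n : ℕ) : SimpleGraph (Fin k × Fin n) where
  Adj p q := p ≠ q ∧ |(p.1 - q.1 : ℤ)| = |(p.2 - q.2 : ℤ)|
  symm := ⟨fun _ _ h => ⟨h.1.symm, by rw [abs_sub_comm, h.2, abs_sub_comm]⟩⟩
  loopless := ⟨fun _ h => h.1 rfl⟩

def par (c a b : ℕ) : Finset ℕ := (Ico a b).filter (· % 2 = c)

theorem mp {c a b x : ℕ} : x ∈ par c a b ↔ (a ≤ x ∧ x < b) ∧ x % 2 = c := by simp [par]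

theorem pc {c : ℕ} (h : c < 2) (a b : ℕ) : #(par c a b) = (b + 1 - c) / 2 - (a + 1 - c) / 2 := by
  rw [← Nat.card_Ico, ← card_image_of_injective (Ico _ _) (f := fun x => 2 * x + c)
    fun x y (e : 2 * x + c = 2 * y + c) => by omega]
  congr 1
  ext x
  simp only [mp, mem_image, mem_Ico]
  exact ⟨fun _ => ⟨x / 2, by omega⟩, fun ⟨_, _⟩ => by omega⟩

theorem ub {c : ℕ} (Y : Finset ℕ) (a b : ℤ) (h : ∀ x ∈ Y, a ≤ x ∧ x ≤ b ∧ x % 2 = c) :
    2 * (#Y : ℤ) ≤ max 0 (b - a + 2) := by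
  have := card_le_card_of_injOn (s := Y) (t := range ((b - a) / 2 + 1).toNat)
    (fun x => ((x - a) / 2).toNat) (fun x p => by
      have := h x p
      simp only [coe_range, Set.mem_Iio]
      omega) fun x p y q e => by
      have := h x p
      have := h y q
      simp only at e
      omega
  rw [card_range] at this
  omega

theorem ar (K R c r l h d u v : ℤ) (a0 : 0 ≤ c) (a1 : c ≤ 1) (a2 : 0 ≤ r) (a3 : r ≤ 1)
    (a4 : 3 * K + 2 ≤ R) (a5 : 0 ≤ K) (a6 : 0 ≤ l) (a7 : l ≤ h) (a8 : h ≤ R)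
    (p1 : (l + K + c) % 2 = 0) (p2 : (h + K + c) % 2 = 0) (p3 : (R + r + c) % 2 = 0)
    (u0 : 0 ≤ u) (v0 : 0 ≤ v) (u1 : l ≤ K → K ≤ h → c = 0 → 1 ≤ u)
    (v1 : l ≤ R - K → R - K ≤ h → r = 0 → 1 ≤ v) (b1 : h - l + 2 ≤ 2 * d) (x1 x2 x3 e : ℤ)
    (a9 : e ≤ d) (b2 : 2 * x1 ≤ max 0 (min (K - l) (h - K) - c + 2))
    (b3 : 2 * x2 ≤ max 0 (h - K - (K + l) + 2))
    (b4 : 2 * x3 ≤ max 0 (R - r - max (K + l) (2 * R - K - h) + 2))
    (b5 : 2 * (x1 + x2 + x3 + e) ≤ max 0 (min (h + K) (R - r) - max (l - K) c + 2)) :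
    2 * (x1 + x2 + x3) + 2 * e ≤ 3 * d + u + v := by
  have c1 : x1 ≤ 0 ∨ 1 - c ≤ u ∧ 2 * x1 ≤ K - l - c + 2 ∧ 2 * x1 ≤ h - K - c + 2 := by
    clear b3 b4 b5 v1 p3
    omega
  have c2 : x2 ≤ 0 ∨ 2 * x2 ≤ h - K - (K + l) + 2 := by
    clear b2 b4 b5 v1 u1 p1 p2 p3
    omega
  have c3 : x3 ≤ 0 ∨ 1 - r ≤ v ∧ 2 * x3 ≤ R - K - l - r + 2 ∧ 2 * x3 ≤ h + K - R - r + 2 := by
    clear b3 b2 b5 u1 c1 c2
    omega
  have c4 : 2 * (x1 + x2 + x3 + e) ≤ h + K - (l - K) + 2 ∧ 2 * (x1 + x2 + x3 + e) ≤ h + K - c + 2 ∧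
      2 * (x1 + x2 + x3 + e) ≤ R - r - (l - K) + 2 ∧ 2 * (x1 + x2 + x3 + e) ≤ R - r - c + 2 := by
    clear b3 b2 b4 u1 v1 c1 c2 c3 p1 p2 p3
    omega
  clear b2 b3 b4 b5 u1 v1 p1 p2 p3
  obtain ⟨_, _, _, _⟩ := c4
  rcases c1 with _ | ⟨_, _, _⟩ <;> rcases c2 with _ | _ <;> rcases c3 with _ | ⟨_, _, _⟩ <;> linarith

def rel (K R x y : ℕ) : Prop :=
  (x + y + K) % 2 = 0 ∧ x ≤ y + K ∧ y ≤ x + K ∧ K ≤ x + y ∧ x + y + K ≤ 2 * R

def lw (K x : ℕ) : ℕ := K - x + (x - K)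

def up (K R x : ℕ) : ℕ := min (x + K) (2 * R - K - x)

theorem rf {K R x y : ℕ} (h : x ≤ R) (k : K ≤ R) :
    rel K R x y ↔ (x + y + K) % 2 = 0 ∧ lw K x ≤ y ∧ y ≤ up K R x := by
  unfold rel lw up
  omega

theorem rg {K R x : ℕ} (h : x ≤ R) (k : 3 * K + 2 ≤ R) : (lw K x + K + x) % 2 = 0 ∧
    (up K R x + K + x) % 2 = 0 ∧ lw K x ≤ up K R x ∧ up K R x ≤ R ∧ x ≤ lw K x + K ∧
    up K R x ≤ x + K ∧ (x + lw K x ≤ K ∨ K + lw K x ≤ x) ∧
    (x + K ≤ up K R x ∨ 2 * R ≤ up K R x + K + x) := by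
  unfold lw up
  omega

variable {ι : Type} {K R c : ℕ} {D : Finset ι} {s t : ι → ℕ}

theorem core (hc : c < 2) (hR : 3 * K + 2 ≤ R) (h1 : ∀ p ∈ D, rel K R (s p) (t p) ∧ s p % 2 = c)
    (X : Finset ℕ) (hX : ∀ x ∈ X, x % 2 = c ∧ x ≤ R ∧ (∀ p ∈ D, s p ≠ x) ∧
      ∀ y, rel K R x y → ∃ p ∈ D, t p = y) :
    2 * #X + 2 * #((D.filter fun p => ∃ x ∈ X, rel K R x (t p)).image s) ≤
      3 * #(D.filter fun p => ∃ x ∈ X, rel K R x (t p)) +
      (if ∃ x ∈ X, rel K R x K then 1 else 0) + if ∃ x ∈ X, rel K R x (R - K) then 1 else 0 := by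
  induction X using Finset.strongInduction with | _ X ih
  have b0 := card_image_le (s := D.filter fun p => ∃ x ∈ X, rel K R x (t p)) (f := s)
  rcases X.eq_empty_or_nonempty with rfl | hn
  · rw [card_empty]
    omega
  obtain ⟨x1, m1, l1⟩ := exists_min_image X (fun x => lw K x) hn
  obtain ⟨x2, m2, l2⟩ := exists_max_image X (fun x => up K R x) hn
  have kr : K ≤ R := by omega
  have r1 (x) (h : x ∈ X) := rg (hX x h).2.1 hR
  have r2 (x) (h : x ∈ X) (y) := rf (y := y) (hX x h).2.1 kr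
  by_cases g : ∃ y ∈ par ((c + K) % 2) (lw K x1) (up K R x2 + 1),
    ¬ ∃ x ∈ X, rel K R x y
  · obtain ⟨y, g1, g2⟩ := g
    rw [mp] at g1
    have g3 (x) (h : x ∈ X) : ¬ (lw K x ≤ y ∧ y ≤ up K R x) := fun q => g2 ⟨x, h, (r2 x h y).2
      ⟨by have := (hX x h).1; omega, q⟩⟩
    have i1 := ih (X.filter fun x => up K R x < y)
      (filter_ssubset.2 ⟨x2, m2, by omega⟩) fun x h => hX x (mem_filter.1 h).1
    have i2 := ih (X.filter fun x => ¬ up K R x < y)
      (filter_ssubset.2 ⟨x1, m1, by have := g3 x1 m1; omega⟩) fun x h => hX x (mem_filter.1 h).1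
    have e0 := card_filter_add_card_filter_not (s := X) fun x => up K R x < y
    have e1 (z) : (∃ x ∈ X, rel K R x z) ↔
        (∃ x ∈ X.filter fun x => up K R x < y, rel K R x z) ∨
        ∃ x ∈ X.filter fun x => ¬ up K R x < y, rel K R x z := by
      simp only [mem_filter, ← exists_or, and_assoc, ← and_or_left, ← or_and_right, _root_.em,
        true_and]
    have e2 (z) : ¬ ((∃ x ∈ X.filter fun x => up K R x < y, rel K R x z) ∧
        ∃ x ∈ X.filter fun x => ¬ up K R x < y, rel K R x z) := by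
      rintro ⟨⟨a, a1, a2⟩, b, b1, b2⟩
      have u1 := g3 b (mem_filter.1 b1).1
      have u2 := (mem_filter.1 a1).2
      have u3 := (mem_filter.1 b1).2
      have u4 := ((r2 a (mem_filter.1 a1).1 z).1 a2).2.2
      have u5 := ((r2 b (mem_filter.1 b1).1 z).1 b2).2.1
      clear * - u1 u2 u3 u4 u5
      omega
    generalize X.filter (fun x => up K R x < y) = X1 at *
    generalize X.filter (fun x => ¬ up K R x < y) = X2 at *
    simp only [e1]
    rw [filter_or, image_union, card_union_of_disjoint (disjoint_filter.2 fun p _ a b => e2 _ ⟨a, b⟩)]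
    have := card_union_le ((D.filter fun p => ∃ x ∈ X1, rel K R x (t p)).image s)
      ((D.filter fun p => ∃ x ∈ X2, rel K R x (t p)).image s)
    have k (z) : (if (∃ x ∈ X1, rel K R x z) ∨ ∃ x ∈ X2, rel K R x z then 1 else 0) =
        (if ∃ x ∈ X1, rel K R x z then 1 else 0) + if ∃ x ∈ X2, rel K R x z then 1 else 0 := by
      by_cases a : ∃ x ∈ X1, rel K R x z <;> by_cases b : ∃ x ∈ X2, rel K R x z
      · exact absurd ⟨a, b⟩ (e2 z)
      · rw [if_pos (.inl a), if_pos a, if_neg b]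
      · rw [if_pos (.inr b), if_neg a, if_pos b]
      · rw [if_neg (not_or.2 ⟨a, b⟩), if_neg a, if_neg b]
    rw [k, k]
    omega
  push Not at g
  have b1 := (card_le_card (t := (D.filter fun p => ∃ x ∈ X, rel K R x (t p)).image t) fun y h => by
    obtain ⟨x, a, b⟩ := g y h
    obtain ⟨p, u, rfl⟩ := (hX x a).2.2.2 y b
    exact mem_image_of_mem _ (mem_filter.2 ⟨u, x, a, b⟩)).trans card_image_le
  have b2 := g K
  have b3 := g (R - K)
  rw [mp] at b2 b3
  have q5 : (lw K x1 + K + c) % 2 = 0 ∧ (up K R x2 + K + c) % 2 = 0 ∧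
    lw K x1 ≤ up K R x2 ∧ up K R x2 ≤ R := by
    have := (r1 x1 m1).1
    have := (r1 x2 m2).2.1
    have := (r1 x2 m2).2.2.1
    have := (r1 x2 m2).2.2.2.1
    have := l1 x2 m2
    have := (hX x1 m1).1
    have := (hX x2 m2).1
    clear b1 b2 b3
    omega
  generalize lw K x1 = lo at *
  generalize up K R x2 = hi at *
  rw [pc (by omega)] at b1
  have A := ar K R c ((R + c) % 2 : ℕ) lo hi (#(D.filter fun p => ∃ x ∈ X, rel K R x (t p)))
    (if ∃ x ∈ X, rel K R x K then 1 else 0 : ℕ) (if ∃ x ∈ X, rel K R x (R - K) then 1 else 0 : ℕ)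
    (by positivity) (by exact_mod_cast Nat.le_of_lt_succ hc) (by positivity)
    (by clear * -; omega) (by exact_mod_cast hR) (by positivity) (by positivity)
    (by exact_mod_cast q5.2.2.1) (by exact_mod_cast q5.2.2.2) (by exact_mod_cast q5.1)
    (by exact_mod_cast q5.2.1) (by clear * -; omega) (by positivity) (by positivity)
    (fun _ _ _ => by rw [if_pos (b2 (by clear b1 b2 b3; omega))]; rfl)
    (fun _ _ _ => by rw [if_pos (b3 (by clear b1 b2 b3; omega))]; rfl) (by clear b2 b3; omega)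
  clear b1 b2 b3 q5 g ih
  have e1 := card_filter_add_card_filter_not (s := X) fun x => x + lo ≤ K
  have e2 := card_filter_add_card_filter_not (s := X.filter fun x => ¬ x + lo ≤ K) fun x => x + K ≤ hi
  have b4 := ub (c := c) (X.filter fun x => x + lo ≤ K) c (min (K - lo) (hi - K)) fun x h => by
    obtain ⟨h, _⟩ := mem_filter.1 h
    have := l2 x h
    have := (hX x h).1
    have := (r1 x h).2.2.2.2.2.2.2
    have := (r1 x h).2.2.2.1
    omega
  have b5 := ub (c := c) ((X.filter fun x => ¬ x + lo ≤ K).filter fun x => x + K ≤ hi) (K + lo)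
    (hi - K) fun x h => by
    obtain ⟨h, _⟩ := mem_filter.1 h
    obtain ⟨h, _⟩ := mem_filter.1 h
    have := l1 x h
    have := (hX x h).1
    have := (r1 x h).2.2.2.2.2.2.1
    clear b4
    omega
  have b6 := ub (c := c) ((X.filter fun x => ¬ x + lo ≤ K).filter fun x => ¬ x + K ≤ hi)
    (max (K + lo) (2 * R - K - hi)) (R - ((R + c) % 2 : ℕ)) fun x h => by
    obtain ⟨h, _⟩ := mem_filter.1 h
    obtain ⟨h, _⟩ := mem_filter.1 h
    have := l1 x h
    have := l2 x h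
    have := (hX x h).1
    have := (hX x h).2.1
    have := (r1 x h).2.2.2.2.2.2
    clear b4 b5
    omega
  have b7 := ub (c := c) (X ∪ (D.filter fun p => ∃ x ∈ X, rel K R x (t p)).image s)
    (max (lo - K) c) (min (hi + K) (R - ((R + c) % 2 : ℕ))) fun z h => by
      clear b4 b5 b6
      rcases mem_union.1 h with h | h
      · have := l1 z h
        have := l2 z h
        have := (hX z h).1
        have := (hX z h).2.1
        have := (r1 z h).2.2.1
        have := (r1 z h).2.2.2.2.1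
        have := (r1 z h).2.2.2.2.2.1
        omega
      obtain ⟨p, u, rfl⟩ := mem_image.1 h
      obtain ⟨u, x, a, b⟩ := mem_filter.1 u
      have := l1 x a
      have := l2 x a
      have := (r2 x a _).1 b
      have := h1 p u
      unfold rel at this
      omega
  rw [card_union_of_disjoint (disjoint_left.2 fun z a b => by
    obtain ⟨p, u, rfl⟩ := mem_image.1 b
    exact (hX _ a).2.2.1 p (mem_filter.1 u).1 rfl), ← e1, ← e2] at b7
  rw [← add_assoc, Nat.cast_add, Nat.cast_add, Nat.cast_add] at b7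
  have := A _ _ _ _ (Int.ofNat_le.2 b0) b4 b5 b6 b7
  rw [← e1, ← e2, ← add_assoc]
  exact_mod_cast this

theorem colour (hc : c < 2) (hR : 3 * K + 2 ≤ R) (h1 : ∀ p ∈ D, rel K R (s p) (t p) ∧ s p % 2 = c)
    (h2 : ∀ x y, rel K R x y → x % 2 = c → (∃ p ∈ D, s p = x) ∨ ∃ p ∈ D, t p = y) : R ≤ 3 * #D := by
  have a := core hc hR h1 (par c 0 (R + 1) \ D.image s) fun x h => by
    obtain ⟨p, q⟩ := mem_sdiff.1 h
    rw [mp] at p
    rw [mem_image] at q
    exact ⟨p.2, by omega, fun u v w => q ⟨u, v, w⟩, fun y r => (h2 x y r p.2).resolve_left q⟩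
  have b := le_card_sdiff (D.image s) (par c 0 (R + 1))
  have d (y) : (∃ x ∈ par c 0 (R + 1) \ D.image s, rel K R x y) → (c + y + K) % 2 = 0 := by
    rintro ⟨x, p, q, -⟩
    have := (mp.1 (mem_sdiff.1 p).1).2
    omega
  generalize par c 0 (R + 1) \ D.image s = X at *
  have e := card_filter_add_card_filter_not (s := D) fun p => ∃ x ∈ X, rel K R x (t p)
  have f := (card_union_le ((D.filter fun p => ∃ x ∈ X, rel K R x (t p)).image s) _).trans
    (Nat.add_le_add_left (card_image_le (f := s)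
      (s := D.filter fun p => ¬ ∃ x ∈ X, rel K R x (t p))) _)
  rw [← image_union, filter_union_filter_not_eq] at f
  rw [pc hc] at b
  have := d K
  have := d (R - K)
  split_ifs at a with u v v <;> simp only [u, v, forall_const, IsEmpty.forall_iff] at * <;> omega

theorem result (k n : ℕ) (hk : 2 < 2 * k) (hn : 2 * k < n) (D : Finset (Fin k × Fin n))
    (hD : ∀ v ∉ D, ∃ u ∈ D, (bishops k n).Adj v u) : 2 * ((k + n) / 3) ≤ D.card := by
  have a (c) (hc : c < 2) := colour (K := k - 1) (R := k + n - 2)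
    (D := D.filter fun p => (p.1.1 + p.2.1) % 2 = c) (s := fun p => p.1.1 + p.2.1)
    (t := fun p => p.2.1 + (k - 1) - p.1.1) hc (by omega)
    (fun p h => ⟨by unfold rel; omega, (mem_filter.1 h).2⟩) fun x y r q => by
      unfold rel at r
      obtain ⟨v, v1, v2⟩ : ∃ v : Fin k × Fin n, v.1.1 + v.2.1 = x ∧ v.2.1 + (k - 1) - v.1.1 = y :=
        ⟨(⟨(x + (k - 1) - y) / 2, by omega⟩, ⟨(x + y - (k - 1)) / 2, by omega⟩), by
          simp only; omega⟩
      by_cases h : v ∈ D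
      · exact .inl ⟨v, mem_filter.2 ⟨h, v1 ▸ q⟩, v1⟩
      obtain ⟨u, u1, -, u2⟩ := hD v h
      rcases abs_eq_abs.1 u2 with e | e
      · exact .inr ⟨u, mem_filter.2 ⟨u1, by omega⟩, by omega⟩
      · exact .inl ⟨u, mem_filter.2 ⟨u1, by omega⟩, by omega⟩
  have e := card_filter_add_card_filter_not (s := D) fun p => (p.1.1 + p.2.1) % 2 = 0
  simp only [Nat.mod_two_not_eq_zero] at e
  have := a 0 (by omega)
  have := a 1 (by omega)
  omega

end Pool.Agent.Results.MP_8e2e71_co.Lower
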